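import Pool.Agent.H75.GT.Green
import Pool.Agent.H93.GT.Canc

/-!
# Green's formula on the triangles of a surface, and the identity for sections
-/

set_option autoImplicit false

namespace Pool.Agent.H75.GT

open MeasureTheory Filter Topology Set
open Pool.Agent.H44.DU Pool.Agent.H93.GTD
open scoped NNReal

theorem JS_eq_Jf (G : ℂ → ℂ) (P Q : ℂ) :
    JS G P Q = Jf (fun u : ℝ => G (P + u * (Q - P))) := rfl

theorem greenTri : GreenTri := by
  intro n S i K G hG
  have h := green (S.v i) (S.orient i) G K hG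
  have e : S.tri i = convexHull ℝ (Set.range (S.v i)) := rfl
  rw [e, h, Fin.sum_univ_three, ← JS_eq_Jf, ← JS_eq_Jf, ← JS_eq_Jf]
  rfl

/-- A1: the Jacobian of a section has integral zero -/
theorem jac_zero' {n : ℕ} {S : Surf n} {ζ : Side n → ℂ} {G : Fin n → ℂ → ℂ}
    (h : S.Sec ζ G) (hζ : ∀ s, ‖ζ s‖ = 1) :
    ∑ i : Fin n, ∫ z in S.tri i,
      ((starRingEnd ℂ) (fderiv ℝ (G i) z 1) * fderiv ℝ (G i) z Complex.I).im = 0 :=
  jac_zero greenTri h hζ

/-- The two complex derivatives of a section have the same norm. -/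
theorem dz_dzb' {n : ℕ} {S : Surf n} {ζ : Side n → ℂ} {G : Fin n → ℂ → ℂ}
    (h : S.Sec ζ G) (hζ : ∀ s, ‖ζ s‖ = 1) :
    ∑ i : Fin n, ∫ z in S.tri i, ‖dz (G i) z‖ ^ 2 =
      ∑ i : Fin n, ∫ z in S.tri i, ‖dzb (G i) z‖ ^ 2 :=
  dz_dzb greenTri h hζ

end Pool.Agent.H75.GT
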