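import Mathlib

/-!
# Smooth approximation of Lipschitz functions in the plane
-/

set_option autoImplicit false

namespace Pool.Agent.H75.GT

open MeasureTheory Filter Topology Set
open scoped NNReal Convolution ContDiff

noncomputable def bmp (n : ℕ) : ContDiffBump (0 : ℂ) where
  rIn := 1 / (2 * ((n : ℝ) + 1))
  rOut := 1 / ((n : ℝ) + 1)
  rIn_pos := by positivity
  rIn_lt_rOut := by
    apply one_div_lt_one_div_of_lt (by positivity)
    have : (0 : ℝ) < (n : ℝ) + 1 := by positivity
    linarith

/-- the kernel -/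
noncomputable def ker (n : ℕ) : ℂ → ℝ := (bmp n).normed volume

theorem ker_contDiff (n : ℕ) : ContDiff ℝ 2 (ker n) := (bmp n).contDiff_normed

theorem ker_cpt (n : ℕ) : HasCompactSupport (ker n) := (bmp n).hasCompactSupport_normed

theorem ker_nonneg (n : ℕ) (x : ℂ) : 0 ≤ ker n x := (bmp n).nonneg_normed x

theorem ker_int (n : ℕ) : ∫ x, ker n x = 1 := (bmp n).integral_normed

theorem ker_integrable (n : ℕ) : Integrable (ker n) := (bmp n).integrable_normed

/-- the smooth approximation -/
noncomputable def um (U : ℂ → ℝ) (n : ℕ) (x : ℂ) : ℝ := ∫ t, ker n t * U (x - t)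

theorem um_eq (U : ℂ → ℝ) (n : ℕ) :
    um U n = (ker n ⋆[ContinuousLinearMap.lsmul ℝ ℝ, volume] U) := rfl

theorem um_swap (U : ℂ → ℝ) (n : ℕ) (x : ℂ) : um U n x = ∫ y, ker n (x - y) * U y := by
  rw [um_eq, convolution_eq_swap]
  rfl

theorem um_contDiff (U : ℂ → ℝ) (hU : Continuous U) (n : ℕ) : ContDiff ℝ 2 (um U n) := by
  rw [um_eq]
  exact (ker_cpt n).contDiff_convolution_left _ (ker_contDiff n) hU.locallyIntegrable

theorem um_integrable (U : ℂ → ℝ) (hU : Continuous U) (n : ℕ) (x : ℂ) :
    Integrable (fun t => ker n t * U (x - t)) :=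
  ((ker_contDiff n).continuous.mul (hU.comp (continuous_const.sub continuous_id))
    ).integrable_of_hasCompactSupport ((ker_cpt n).mul_right)

theorem um_lip (U : ℂ → ℝ) (K : ℝ≥0) (hU : LipschitzWith K U) (n : ℕ) :
    LipschitzWith K (um U n) := by
  apply LipschitzWith.of_dist_le_mul
  intro x y
  rw [Real.dist_eq, um, um, ← integral_sub (um_integrable U hU.continuous n x)
    (um_integrable U hU.continuous n y)]
  calc |∫ t, (ker n t * U (x - t) - ker n t * U (y - t))|
      ≤ ∫ t, |ker n t * U (x - t) - ker n t * U (y - t)| := abs_integral_le_integral_abs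
    _ ≤ ∫ t, ker n t * (K * dist x y) := by
        apply integral_mono_of_nonneg (Eventually.of_forall fun t => abs_nonneg _)
          ((ker_integrable n).mul_const _)
        refine Eventually.of_forall fun t => ?_
        show |ker n t * U (x - t) - ker n t * U (y - t)| ≤ ker n t * (K * dist x y)
        rw [← mul_sub, abs_mul, abs_of_nonneg (ker_nonneg n t)]
        apply mul_le_mul_of_nonneg_left _ (ker_nonneg n t)
        have := hU.dist_le_mul (x - t) (y - t)
        rwa [Real.dist_eq, dist_sub_right] at this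
    _ = K * dist x y := by rw [integral_mul_const, ker_int, one_mul]

theorem um_close (U : ℂ → ℝ) (K : ℝ≥0) (hU : LipschitzWith K U) (n : ℕ) (x : ℂ) :
    |um U n x - U x| ≤ K * (1 / ((n : ℝ) + 1)) := by
  rw [← Real.dist_eq, um_eq]
  apply (bmp n).dist_normed_convolution_le hU.continuous.aestronglyMeasurable
  intro y hy
  have h1 := hU.dist_le_mul y x
  have h2 : dist y x ≤ 1 / ((n : ℝ) + 1) := (Metric.mem_ball.1 hy).le
  exact h1.trans (mul_le_mul_of_nonneg_left h2 K.2)

theorem um_fderiv (U : ℂ → ℝ) (K : ℝ≥0) (hU : LipschitzWith K U) (n : ℕ) (x v : ℂ) :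
    fderiv ℝ (um U n) x v = ∫ y, lineDeriv ℝ U y v * ker n (x - y) := by
  have hd : DifferentiableAt ℝ (um U n) x :=
    (um_contDiff U hU.continuous n).differentiable (by norm_num) x
  have h1 : Tendsto (fun t : ℝ => t⁻¹ • (um U n (x + t • v) - um U n x)) (𝓝[>] 0)
      (𝓝 (fderiv ℝ (um U n) x v)) := (hd.hasFDerivAt.hasLineDerivAt v).tendsto_slope_zero_right
  have hg : Integrable (fun y => ker n (x - y)) := (ker_integrable n).comp_sub_left x
  have h2 := LipschitzWith.integral_inv_smul_sub_mul_tendsto_integral_lineDeriv_mul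
    (μ := (volume : Measure ℂ)) hU hg v
  refine tendsto_nhds_unique h1 (h2.congr fun t => ?_)
  have e1 : um U n (x + t • v) = ∫ y, U (y + t • v) * ker n (x - y) := by
    rw [um, ← integral_sub_left_eq_self (fun y => U (y + t • v) * ker n (x - y)) volume x]
    apply integral_congr_ae
    refine Eventually.of_forall fun s => ?_
    show ker n s * U (x + t • v - s) = U (x - s + t • v) * ker n (x - (x - s))
    rw [sub_sub_cancel, mul_comm]
    congr 2
    ring
  have e2 : um U n x = ∫ y, U y * ker n (x - y) := by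
    rw [um_swap]
    apply integral_congr_ae
    exact Eventually.of_forall fun s => mul_comm _ _
  have i1 : Integrable (fun y => U (y + t • v) * ker n (x - y)) :=
    ((hU.continuous.comp (continuous_id.add continuous_const)).mul
      ((ker_contDiff n).continuous.comp (continuous_const.sub continuous_id))
      ).integrable_of_hasCompactSupport
      (((ker_cpt n).comp_homeomorph (Homeomorph.subLeft x)).mul_left)
  have i2 : Integrable (fun y => U y * ker n (x - y)) :=
    (hU.continuous.mul
      ((ker_contDiff n).continuous.comp (continuous_const.sub continuous_id))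
      ).integrable_of_hasCompactSupport
      (((ker_cpt n).comp_homeomorph (Homeomorph.subLeft x)).mul_left)
  rw [e1, e2, ← integral_sub i1 i2, smul_eq_mul, ← integral_const_mul]
  apply integral_congr_ae
  refine Eventually.of_forall fun s => ?_
  show (t⁻¹ • (U (s + t • v) - U s)) * ker n (x - s)
    = t⁻¹ * (U (s + t • v) * ker n (x - s) - U s * ker n (x - s))
  rw [smul_eq_mul]
  ring

theorem um_ae (U : ℂ → ℝ) (K : ℝ≥0) (hU : LipschitzWith K U) (v : ℂ) :
    ∀ᵐ x : ℂ, Tendsto (fun n => fderiv ℝ (um U n) x v) atTop (𝓝 (fderiv ℝ U x v)) := by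
  have hl : LocallyIntegrable (fun y => lineDeriv ℝ U y v) (volume : Measure ℂ) :=
    hU.locallyIntegrable_lineDeriv v
  have h1 := ContDiffBump.ae_convolution_tendsto_right_of_locallyIntegrable
    (μ := (volume : Measure ℂ)) (φ := bmp) (l := atTop) (K := 2) (g := fun y => lineDeriv ℝ U y v)
    tendsto_one_div_add_atTop_nhds_zero_nat ?_ hl
  · filter_upwards [h1, hU.ae_differentiableAt] with x hx hd
    have e : lineDeriv ℝ U x v = fderiv ℝ U x v := hd.lineDeriv_eq_fderiv
    rw [e] at hx
    refine hx.congr fun n => ?_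
    rw [um_fderiv U K hU n x v, convolution_eq_swap]
    apply integral_congr_ae
    exact Eventually.of_forall fun s => mul_comm _ _
  · refine Eventually.of_forall fun n => ?_
    show 1 / ((n : ℝ) + 1) ≤ 2 * (1 / (2 * ((n : ℝ) + 1)))
    apply le_of_eq
    field_simp

end Pool.Agent.H75.GT
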