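import Pool.Agent.H75.GT.GreenStd

/-!
# The parametrisation of a triangle
-/

set_option autoImplicit false

namespace Pool.Agent.H75.GT

open MeasureTheory Filter Topology Set
open scoped NNReal ContDiff

/-- the determinant of two vectors -/
def dt (e f : ℂ) : ℝ := e.re * f.im - e.im * f.re

/-- the linear part of the parametrisation -/
noncomputable def AA (e f : ℂ) : ℂ →L[ℝ] ℂ :=
  Complex.reCLM.smulRight e + Complex.imCLM.smulRight f

theorem AA_apply (e f w : ℂ) : AA e f w = w.re • e + w.im • f := rfl

theorem AA_det (e f : ℂ) : (AA e f).det = dt e f := by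
  rw [ContinuousLinearMap.det, ← LinearMap.det_toMatrix Complex.basisOneI, Matrix.det_fin_two]
  simp only [LinearMap.toMatrix_apply, Complex.coe_basisOneI, Complex.coe_basisOneI_repr,
    ContinuousLinearMap.coe_coe, AA_apply]
  simp only [Matrix.cons_val_zero, Matrix.cons_val_one, Complex.one_re, Complex.one_im,
    Complex.I_re, Complex.I_im, one_smul, zero_smul, add_zero, zero_add, dt]
  ring

/-- the standard triangle in the complex plane -/
def Dc : Set ℂ := Complex.measurableEquivRealProd ⁻¹' Dl

theorem Dc_meas : MeasurableSet Dc := Complex.measurableEquivRealProd.measurable Dl_meas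

theorem AA_inj (e f : ℂ) (h : dt e f ≠ 0) (x y : ℂ) (hxy : AA e f x = AA e f y) : x = y := by
  rw [AA_apply, AA_apply] at hxy
  have h1 := congrArg Complex.re hxy
  have h2 := congrArg Complex.im hxy
  simp only [Complex.add_re, Complex.add_im, Complex.real_smul, Complex.mul_re, Complex.mul_im,
    Complex.ofReal_re, Complex.ofReal_im, zero_mul, sub_zero, add_zero] at h1 h2
  have h3 : (x.re - y.re) * dt e f = 0 := by
    rw [dt]; linear_combination f.im * h1 - f.re * h2
  have h4 : (x.im - y.im) * dt e f = 0 := by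
    rw [dt]; linear_combination e.re * h2 - e.im * h1
  apply Complex.ext
  · rcases mul_eq_zero.1 h3 with h5 | h5
    · linarith
    · exact absurd h5 h
  · rcases mul_eq_zero.1 h4 with h5 | h5
    · linarith
    · exact absurd h5 h

theorem LL_eq (p e f w : ℂ) : LL p e f (Complex.measurableEquivRealProd w) = p + AA e f w := by
  rw [AA_apply, LL, Complex.measurableEquivRealProd_apply, add_assoc]

theorem image_eq (p e f : ℂ) : (fun w => p + AA e f w) '' Dc = LL p e f '' Dl := by
  ext z
  constructor
  · rintro ⟨w, hw, rfl⟩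
    exact ⟨Complex.measurableEquivRealProd w, hw, LL_eq p e f w⟩
  · rintro ⟨q, hq, rfl⟩
    refine ⟨Complex.measurableEquivRealProd.symm q, ?_, ?_⟩
    · show Complex.measurableEquivRealProd (Complex.measurableEquivRealProd.symm q) ∈ Dl
      rw [MeasurableEquiv.apply_symm_apply]
      exact hq
    · show p + AA e f (Complex.measurableEquivRealProd.symm q) = LL p e f q
      rw [← LL_eq, MeasurableEquiv.apply_symm_apply]

/-- change of variables -/
theorem change (p e f : ℂ) (h : 0 < dt e f) (F : ℂ → ℝ) :
    ∫ z in LL p e f '' Dl, F z = dt e f * ∫ q in Dl, F (LL p e f q) := by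
  rw [← image_eq]
  have h1 := integral_image_eq_integral_abs_det_fderiv_smul (volume : Measure ℂ)
    (f := fun w => p + AA e f w) (f' := fun _ => AA e f) (s := Dc) Dc_meas
    (fun x _ => ((AA e f).hasFDerivAt.const_add p).hasFDerivWithinAt)
    (fun x _ y _ hxy => AA_inj e f h.ne' x y (add_left_cancel hxy)) F
  rw [h1]
  simp only [AA_det, abs_of_pos h, smul_eq_mul]
  rw [integral_const_mul]
  congr 1
  have h2 := Complex.volume_preserving_equiv_real_prod.setIntegral_preimage_emb
    Complex.measurableEquivRealProd.measurableEmbedding (fun q => F (LL p e f q)) Dl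
  rw [← h2]
  apply setIntegral_congr_fun Dc_meas
  intro w _
  show F (p + AA e f w) = F (LL p e f (Complex.measurableEquivRealProd w))
  rw [LL_eq]

theorem range_eq (v : Fin 3 → ℂ) : Set.range v = {v 0, v 1, v 2} := by
  ext z
  constructor
  · rintro ⟨k, rfl⟩
    fin_cases k
    · exact Or.inl rfl
    · exact Or.inr (Or.inl rfl)
    · exact Or.inr (Or.inr rfl)
  · rintro (h | h | h)
    · exact ⟨0, h.symm⟩
    · exact ⟨1, h.symm⟩
    · exact ⟨2, h.symm⟩

/-- the triangle is the image of the standard triangle -/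
theorem tri_eq (v : Fin 3 → ℂ) :
    convexHull ℝ (Set.range v) = LL (v 0) (v 1 - v 0) (v 2 - v 0) '' Dl := by
  apply Subset.antisymm
  · apply convexHull_min
    · rintro _ ⟨k, rfl⟩
      fin_cases k
      · refine ⟨(0, 0), ⟨le_rfl, le_rfl, by norm_num⟩, ?_⟩
        simp [LL]
      · refine ⟨(1, 0), ⟨zero_le_one, le_rfl, by norm_num⟩, ?_⟩
        simp [LL]
      · refine ⟨(0, 1), ⟨le_rfl, zero_le_one, by norm_num⟩, ?_⟩
        simp [LL]
    · rintro _ ⟨q, ⟨q1, q2, q3⟩, rfl⟩ _ ⟨r, ⟨r1, r2, r3⟩, rfl⟩ a b ha hb hab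
      refine ⟨(a * q.1 + b * r.1, a * q.2 + b * r.2), ⟨by positivity, by positivity, ?_⟩, ?_⟩
      · show a * q.1 + b * r.1 + (a * q.2 + b * r.2) ≤ 1
        nlinarith
      · show v 0 + (a * q.1 + b * r.1) • (v 1 - v 0) + (a * q.2 + b * r.2) • (v 2 - v 0) =
          a • (v 0 + q.1 • (v 1 - v 0) + q.2 • (v 2 - v 0)) +
            b • (v 0 + r.1 • (v 1 - v 0) + r.2 • (v 2 - v 0))
        have e : v 0 = (a + b) • v 0 := by rw [hab, one_smul]
        simp only [Complex.real_smul]
        push_cast
        have e2 : (a : ℂ) + b = 1 := by exact_mod_cast hab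
        linear_combination (-(v 0)) * e2
  · rintro _ ⟨q, ⟨q1, q2, q3⟩, rfl⟩
    have hc := convex_convexHull ℝ (Set.range v)
    have m : ∀ k, v k ∈ convexHull ℝ (Set.range v) := fun k =>
      subset_convexHull ℝ _ ⟨k, rfl⟩
    have h1 := hc.sum_mem (t := (Finset.univ : Finset (Fin 3)))
      (w := ![1 - q.1 - q.2, q.1, q.2]) (z := v) ?_ ?_ (fun k _ => m k)
    · rw [Fin.sum_univ_three] at h1
      simp only [Matrix.cons_val_zero, Matrix.cons_val_one, Matrix.cons_val] at h1
      have e : LL (v 0) (v 1 - v 0) (v 2 - v 0) q =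
          (1 - q.1 - q.2) • v 0 + q.1 • v 1 + q.2 • v 2 := by
        simp only [LL, Complex.real_smul]
        push_cast
        ring
      rw [e]
      exact h1
    · intro k _
      fin_cases k
      · show 0 ≤ 1 - q.1 - q.2
        linarith
      · exact q1
      · exact q2
    · rw [Fin.sum_univ_three]
      simp only [Matrix.cons_val_zero, Matrix.cons_val_one, Matrix.cons_val]
      ring

end Pool.Agent.H75.GT
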