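import Pool.Agent.H93.GT.Targets

/-! # gdi_modules: GFL (helper75), the flow out of the stations -/

namespace Pool.Agent.H75.GT

open Pool.Agent.H93.GT Pool.Agent.H87.Synth Pool.Agent.H85.SC Finset
open Pool.Agent.H93.ET (sg jj iE iA T_KKL T_CUT T_BRK T_SER T_CRI)

section

variable {d : ℕ → ℝ} {P : Pos d}

lemma lg_pow (b : ℕ) : lg (2 ^ b) = b := by
  unfold lg
  exact Nat.log_pow (by norm_num) b

lemma lg_pow_sub (b : ℕ) : lg (2 ^ (b + 1) - 1) = b := by
  unfold lg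
  have h1 : 1 ≤ 2 ^ b := Nat.one_le_two_pow
  have h2 : 2 ^ (b + 1) = 2 * 2 ^ b := by rw [pow_succ, mul_comm]
  rw [Nat.log_eq_iff (Or.inr ⟨by norm_num, by omega⟩)]
  omega

lemma iA_mem (x : ℝ) : iA x = 0 ∨ iA x = 1 := by
  unfold Pool.Agent.H93.ET.iA
  split_ifs <;> simp

lemma iE_mem (x : ℝ) : iE x = 0 ∨ iE x = 1 := by
  unfold Pool.Agent.H93.ET.iE
  split_ifs <;> simp

lemma EM_chain (n b : ℕ) (hn : n < 2 ^ b) (s : ℤ) :
    P.EM n (2 ^ (b + 1)) s = P.FS n (2 ^ b) s := by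
  unfold Pos.EM
  rw [lg_pow, if_pos rfl, Nat.add_sub_cancel, if_pos hn]

lemma EM_other (n i : ℕ) (hi : i ≠ 2 ^ lg i) (s : ℤ) : P.EM n i s = P.FD n (i - 1) s := by
  unfold Pos.EM
  rw [if_neg hi]

lemma EM_child (n b : ℕ) (s : ℤ) :
    P.EM (n + 2 ^ b) (2 ^ (b + 1)) s = P.FD n (2 ^ (b + 1) - 1) s := by
  unfold Pos.EM
  rw [lg_pow, if_pos rfl, Nat.add_sub_cancel, if_neg (by omega), Nat.add_sub_cancel]

/-- a point is an absorbing point of the root station -/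
def Root (P : Pos d) (z : ℤ) : Prop :=
  P.Reg 0 1 z ∧ s1 0 1 z = s2 0 1 z ∧ s1 0 1 z = s3 0 1 z ∧ s3 0 1 z ≠ -s3 0 1 z

lemma root_FS (h1 : T_GSG) (h2 : T_GUQ) {z : ℤ} (hz : Root P z) {n i : ℕ} {s : ℤ} :
    z ∉ P.FS n i s := by
  intro h
  unfold Pos.FS at h
  obtain ⟨h3, h4, h5, h6⟩ := Finset.mem_filter.1 h
  have h7 := (h2 d P).2.1 _ _ _ _ _ (((h1 d P).1 n i z).1 h3) hz.1
  obtain ⟨rfl, rfl⟩ := h7
  apply hz.2.2.2
  have h8 : s3 0 1 z = s := by rw [← hz.2.2.1, h4]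
  calc s3 0 1 z = -s := h6
    _ = -s3 0 1 z := by rw [h8]

lemma root_FD (h1 : T_GSG) (h2 : T_GUQ) {z : ℤ} (hz : Root P z) {n i : ℕ} {s : ℤ} :
    z ∉ P.FD n i s := by
  intro h
  unfold Pos.FD at h
  obtain ⟨h3, h4, h5⟩ := Finset.mem_filter.1 h
  have h7 := (h2 d P).2.1 _ _ _ _ _ (((h1 d P).1 n i z).1 h3) hz.1
  obtain ⟨rfl, rfl⟩ := h7
  exact h4 hz.2.1

lemma root_EM (h1 : T_GSG) (h2 : T_GUQ) {z : ℤ} (hz : Root P z) {n i : ℕ} {s : ℤ} :
    z ∉ P.EM n i s := by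
  unfold Pos.EM
  split_ifs
  · exact root_FS h1 h2 hz
  · exact root_FD h1 h2 hz
  · exact root_FD h1 h2 hz

lemma root_pp (h2 : T_GUQ) {z : ℤ} (hz : Root P z) {n i : ℕ} {t κ : ℤ} {s : Bool}
    (hκ : κ = 0 ∨ κ = 1) : z ≠ pp n i t κ s :=
  (h2 d P).2.2.1 0 1 z n i t κ s hz.1 hκ

lemma root_AB (h2 : T_GUQ) {z : ℤ} (hz : Root P z) {n i m : ℕ} {s : Bool} :
    z ∉ P.AB n i m s := by
  intro h
  unfold Pos.AB at h
  obtain ⟨t, -, ht⟩ := Finset.mem_image.1 h
  exact root_pp h2 hz (iA_mem _) ht.symm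

lemma root_EB (h2 : T_GUQ) {z : ℤ} (hz : Root P z) {n i m : ℕ} {s : Bool} :
    z ∉ P.EB n i m s := by
  intro h
  unfold Pos.EB at h
  obtain ⟨t, -, ht⟩ := Finset.mem_image.1 h
  exact root_pp h2 hz (iE_mem _) ht.symm

lemma root_cls (h1 : T_GSG) (h2 : T_GUQ) {z : ℤ} (hz : Root P z) (S : Set ℕ) (c : GC) :
    z ∉ P.cls S c := by
  intro h
  cases c with
  | blk n i m s =>
    simp only [Pos.cls] at h
    split_ifs at h with h3 h4
    · rcases Finset.mem_union.1 h with h5 | h5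
      · exact root_AB h2 hz h5
      · exact root_EM h1 h2 hz h5
    · rcases Finset.mem_union.1 h with h5 | h5
      · exact root_AB h2 hz h5
      · exact root_EB h2 hz h5
    · exact absurd h (Finset.notMem_empty z)
  | sta n i s =>
    simp only [Pos.cls] at h
    split_ifs at h with h3
    · rcases Finset.mem_union.1 h with h5 | h5
      · unfold Pos.FA at h5
        have h6 := ((h1 d P).1 n i z).1 (Finset.mem_filter.1 h5).1
        exact h3.2.2 ((h2 d P).2.1 _ _ _ _ _ h6 hz.1).2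
      · exact root_EB h2 hz h5
    · exact absurd h (Finset.notMem_empty z)
  | lst n i =>
    simp only [Pos.cls] at h
    split_ifs at h with h3
    · rcases Finset.mem_union.1 h with h5 | h5
      · exact root_FS h1 h2 hz h5
      · exact root_FS h1 h2 hz h5
    · exact absurd h (Finset.notMem_empty z)
  | ldr n i =>
    simp only [Pos.cls] at h
    split_ifs at h with h3
    · rcases Finset.mem_union.1 h with h5 | h5
      · exact root_FD h1 h2 hz h5
      · exact root_FD h1 h2 hz h5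
    · exact absurd h (Finset.notMem_empty z)
  | par n i t s =>
    simp only [Pos.cls] at h
    split_ifs at h with h3
    · rw [Finset.mem_insert, Finset.mem_singleton] at h
      rcases h with h5 | h5
      · exact root_pp h2 hz (Or.inl rfl) h5
      · exact root_pp h2 hz (Or.inr rfl) h5
    · exact absurd h (Finset.notMem_empty z)

lemma root_of_FA (h1 : T_GSG) {z s : ℤ} (hs : s ≠ -s) (hz : z ∈ P.FA 0 1 s) : Root P z := by
  unfold Pos.FA at hz
  obtain ⟨h3, h4, h5, h6⟩ := Finset.mem_filter.1 hz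
  refine ⟨((h1 d P).1 0 1 z).1 h3, by rw [h4, h5], by rw [h4, h6], ?_⟩
  rw [h6]
  exact hs

end

theorem gfl (h1 : T_GSG) (h2 : T_GUQ) (_h3 : T_PRE) : T_GFL := by
  intro d P S hS g hg n hn
  obtain ⟨-, -, hdis, -⟩ := h1 d P
  refine ⟨?_, ?_, ?_, ?_, ?_⟩
  · intro b hb
    unfold Pos.gE Pos.gS
    rw [EM_chain n b hb, EM_chain n b hb]
  · intro i hv hi
    constructor
    · have h4 := hg.1 (GC.lst n i)
      simp only [Pos.cls] at h4
      rw [if_pos ⟨hn, hv, hi⟩, Finset.sum_union (hdis n i).2.1] at h4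
      exact h4
    · unfold Pos.gE Pos.gD
      rw [EM_other n i hi, EM_other n i hi]
  · intro b _ _
    unfold Pos.gE Pos.gD
    rw [EM_child, EM_child]
  · intro b hb hnb
    have h4 := hg.1 (GC.ldr n (2 ^ (b + 1) - 1))
    simp only [Pos.cls] at h4
    rw [lg_pow_sub] at h4
    have h5 : 1 ≤ 2 ^ (b + 1) := Nat.one_le_two_pow
    have h6 : 2 ^ (b + 1) = 2 * 2 ^ b := by rw [pow_succ, mul_comm]
    have h7 : 1 ≤ 2 ^ b := Nat.one_le_two_pow
    rw [if_pos ⟨hn, ⟨by omega, by rw [lg_pow_sub]; exact hb⟩, by omega, hnb⟩,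
      Finset.sum_union (hdis n _).2.2] at h4
    exact h4
  · rintro rfl
    unfold Pos.gA
    rw [Finset.sum_eq_zero, Finset.sum_eq_zero, add_zero]
    · intro z hz
      exact hg.2 z fun c => root_cls h1 h2 (root_of_FA h1 (by norm_num) hz) S c
    · intro z hz
      exact hg.2 z fun c => root_cls h1 h2 (root_of_FA h1 (by norm_num) hz) S c

end Pool.Agent.H75.GT
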