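import Pool.Agent.H93.GT.Targets

/-! # gdi_modules: GPO (helper75), after helper4's HBA -/

open Filter Topology

namespace Pool.Agent.H75.GT

open Pool.Agent.H93.GT Pool.Agent.H87.Synth Pool.Agent.H85.SC Finset
open Pool.Agent.H93.ET (sg jj iE iA T_KKL T_CUT T_BRK T_SER T_CRI)

/-- the idempotents of the finite classes -/
def idemR (r : Setoid ℤ) : Set L1 :=
  {x | ∃ (C : Finset ℤ) (z : ℤ), (∀ w, w ∈ C ↔ r z w) ∧ x = eS C}

/-- a vector outside the closure of a subspace is separated from it by a functional -/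
lemma exists_functional (W : Submodule ℂ L1) (f : L1) (hf : f ∉ closure (W : Set L1)) :
    ∃ Λ : L1 →L[ℂ] ℂ, (∀ x ∈ W, Λ x = 0) ∧ Λ f ≠ 0 := by
  have h1 : ‖(W.mkQL f : L1 ⧸ W)‖ ≠ 0 := by
    intro h
    apply hf
    exact (QuotientAddGroup.norm_mk_eq_zero_iff_mem_closure (S := W.toAddSubgroup)).1 h
  obtain ⟨g, -, hg⟩ := exists_dual_vector ℂ (W.mkQL f) h1
  refine ⟨g.comp W.mkQL, fun x hx => ?_, ?_⟩
  · rw [ContinuousLinearMap.comp_apply]
    have : W.mkQL x = 0 := by
      rw [Submodule.mkQL_apply]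
      exact (Submodule.Quotient.mk_eq_zero W).2 hx
    rw [this, map_zero]
  · rw [ContinuousLinearMap.comp_apply, hg]
    exact fun h => h1 ((RCLike.ofReal_eq_zero (K := ℂ)).1 h)

lemma span_idem (r : Setoid ℤ) {p : L1} (hp : p ∈ Submodule.span ℂ (idemR r)) :
    ∃ c : ℤ →₀ ℂ, (∀ m n, r m n → c m = c n) ∧ p = Finsupp.linearCombination ℂ ex c := by
  classical
  induction hp using Submodule.span_induction with
  | mem x hx =>
    obtain ⟨C, z, hC, rfl⟩ := hx
    refine ⟨∑ k ∈ C, Finsupp.single k 1, fun m n hmn => ?_, ?_⟩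
    · have h1 : m ∈ C ↔ n ∈ C := by
        rw [hC, hC]
        exact ⟨fun h => r.trans h hmn, fun h => r.trans h (r.symm hmn)⟩
      simp only [Finsupp.finsetSum_apply, Finsupp.single_apply, Finset.sum_ite_eq', h1]
    · rw [map_sum, eS]
      refine Finset.sum_congr rfl fun k _ => ?_
      rw [Finsupp.linearCombination_single, one_smul]
  | zero => exact ⟨0, fun _ _ _ => rfl, by rw [map_zero]⟩
  | add x y _ _ hx hy =>
    obtain ⟨c, hc, rfl⟩ := hx
    obtain ⟨d, hd, rfl⟩ := hy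
    exact ⟨c + d, fun m n h => by rw [Finsupp.add_apply, Finsupp.add_apply, hc m n h, hd m n h],
      by rw [map_add]⟩
  | smul a x _ hx =>
    obtain ⟨c, hc, rfl⟩ := hx
    exact ⟨a • c, fun m n h => by rw [Finsupp.smul_apply, Finsupp.smul_apply, hc m n h],
      by rw [map_smul]⟩

/-- duality for a general relation -/
theorem hba_gen (r : Setoid ℤ)
    (H : ∀ (Λ : L1 →L[ℂ] ℂ) (f : L1), (∀ (C : Finset ℤ) (z : ℤ), (∀ w, w ∈ C ↔ r z w) →
      Λ (eS C) = 0) → f ∈ Amax r → Λ f = 0) : HasSynthesis r := by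
  refine synthesis_of_approx _ ?_
  intro f hf _ ε hε
  have hcl : f ∈ closure ((Submodule.span ℂ (idemR r) : Submodule ℂ L1) : Set L1) := by
    by_contra hnot
    obtain ⟨Λ, h1, h2⟩ := exists_functional _ f hnot
    refine h2 (H Λ f ?_ hf)
    intro C z hC
    exact h1 _ (Submodule.subset_span ⟨C, z, hC, rfl⟩)
  obtain ⟨p, hp, hfp⟩ := Metric.mem_closure_iff.1 hcl ε hε
  obtain ⟨c, hc, rfl⟩ := span_idem r hp
  refine ⟨c, hc, ?_⟩
  rw [dist_eq_norm] at hfp
  exact hfp

theorem gpo (h1 : T_GLK) (h2 : T_GRL) (h3 : T_GDJ) : T_GPO := by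
  intro d P S hS hB
  obtain ⟨hrel, -, hA⟩ := h2 d P S
  refine hba_gen _ fun Λ f hΛ hf => h1 d P S hS hB Λ f ⟨fun c => ?_, fun z hz => ?_⟩
    ((hA f).1 hf)
  · by_cases hne : (P.cls S c).Nonempty
    · obtain ⟨z, hz⟩ := hne
      have h4 := hΛ (P.cls S c) z fun w => ?_
      · rw [eS, map_sum] at h4
        exact h4
      · rw [hrel]
        constructor
        · intro hw
          exact Or.inr ⟨c, hz, hw⟩
        · rintro (rfl | ⟨c', hz', hw'⟩)
          · exact hz
          · rw [(h3 d P).1 S c c' z hz hz']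
            exact hw'
    · rw [Finset.not_nonempty_iff_eq_empty.1 hne, Finset.sum_empty]
  · have h4 := hΛ {z} z fun w => ?_
    · rw [eS, Finset.sum_singleton] at h4
      exact h4
    · rw [hrel, Finset.mem_singleton]
      constructor
      · rintro rfl
        exact Or.inl rfl
      · rintro (rfl | ⟨c, hc, -⟩)
        · rfl
        · exact absurd hc (hz c)

end Pool.Agent.H75.GT
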