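import Pool.Agent.H75.GT.GreenR

/-!
# Green's formula for complex valued Lipschitz functions on a triangle
-/

set_option autoImplicit false

namespace Pool.Agent.H75.GT

open MeasureTheory Filter Topology Set
open scoped NNReal ContDiff

/-- the boundary functional of a side -/
noncomputable def JS (G : ℂ → ℂ) (P Q : ℂ) : ℝ :=
  (1 / 2) * ∫ u in (0 : ℝ)..1, ((starRingEnd ℂ) (G (P + u • (Q - P))) *
    deriv (fun u : ℝ => G (P + u • (Q - P))) u).im

/-- a Lipschitz function on a set agrees with a pair of Lipschitz functions of the plane -/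
theorem extend_pair (G : ℂ → ℂ) (T : Set ℂ) (K : ℝ≥0) (hG : LipschitzOnWith K G T) :
    ∃ U V : ℂ → ℝ, LipschitzWith K U ∧ LipschitzWith K V ∧
      ∀ z ∈ T, G z = (U z : ℂ) + V z * Complex.I := by
  have h1 : LipschitzOnWith K (fun z => (G z).re) T := by
    apply LipschitzOnWith.of_dist_le_mul
    intro x hx y hy
    rw [Real.dist_eq, ← Complex.sub_re]
    exact (Complex.abs_re_le_norm _).trans (by
      rw [← dist_eq_norm]; exact hG.dist_le_mul x hx y hy)
  have h2 : LipschitzOnWith K (fun z => (G z).im) T := by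
    apply LipschitzOnWith.of_dist_le_mul
    intro x hx y hy
    rw [Real.dist_eq, ← Complex.sub_im]
    exact (Complex.abs_im_le_norm _).trans (by
      rw [← dist_eq_norm]; exact hG.dist_le_mul x hx y hy)
  obtain ⟨U, hU, eU⟩ := h1.extend_real
  obtain ⟨V, hV, eV⟩ := h2.extend_real
  refine ⟨U, V, hU, hV, fun z hz => ?_⟩
  rw [← eU hz, ← eV hz]
  exact (Complex.re_add_im (G z)).symm

theorem fderiv_pair (U V : ℂ → ℝ) (z w : ℂ) (hU : DifferentiableAt ℝ U z)
    (hV : DifferentiableAt ℝ V z) :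
    fderiv ℝ (fun z => (U z : ℂ) + V z * Complex.I) z w =
      (fderiv ℝ U z w : ℂ) + fderiv ℝ V z w * Complex.I := by
  have h1 : HasFDerivAt (fun z => (U z : ℂ)) (Complex.ofRealCLM.comp (fderiv ℝ U z)) z :=
    Complex.ofRealCLM.hasFDerivAt.comp z hU.hasFDerivAt
  have h2 : HasFDerivAt (fun z => (V z : ℂ)) (Complex.ofRealCLM.comp (fderiv ℝ V z)) z :=
    Complex.ofRealCLM.hasFDerivAt.comp z hV.hasFDerivAt
  have h3 := (h1.add (h2.mul_const Complex.I)).fderiv
  have h4 : fderiv ℝ (fun z => (U z : ℂ) + V z * Complex.I) z =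
    Complex.ofRealCLM.comp (fderiv ℝ U z) + Complex.I • Complex.ofRealCLM.comp (fderiv ℝ V z) := h3
  rw [h4]
  show (fderiv ℝ U z w : ℂ) + Complex.I * (fderiv ℝ V z w : ℂ) = _
  ring

theorem jac_im (a b c d : ℝ) : ((starRingEnd ℂ) ((a : ℂ) + b * Complex.I) *
    ((c : ℂ) + d * Complex.I)).im = a * d - c * b := by
  simp only [map_add, map_mul, Complex.conj_ofReal, Complex.conj_I, Complex.mul_im,
    Complex.add_re, Complex.add_im, Complex.ofReal_re, Complex.ofReal_im, Complex.mul_re,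
    Complex.I_re, Complex.I_im, Complex.neg_re, Complex.neg_im]
  ring

theorem seg_mem {T : Set ℂ} (hT : Convex ℝ T) {P Q : ℂ} (hP : P ∈ T) (hQ : Q ∈ T) {u : ℝ}
    (h0 : 0 ≤ u) (h1 : u ≤ 1) : P + u • (Q - P) ∈ T := by
  have h := hT hP hQ (by linarith : 0 ≤ 1 - u) h0 (by ring)
  have e : P + u • (Q - P) = (1 - u) • P + u • Q := by
    rw [smul_sub, sub_smul, one_smul]; ring
  rw [e]
  exact h

theorem JS_eq (G : ℂ → ℂ) (U V : ℂ → ℝ) (K : ℝ≥0) (hU : LipschitzWith K U)
    (hV : LipschitzWith K V) (T : Set ℂ) (hT : Convex ℝ T)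
    (h : ∀ z ∈ T, G z = (U z : ℂ) + V z * Complex.I) (P Q : ℂ) (hP : P ∈ T) (hQ : Q ∈ T) :
    JS G P Q = (1 / 2) * (JV U V P Q - JV V U P Q) := by
  have hint : ∀ (W X : ℂ → ℝ) (_ : LipschitzWith K W) (_ : LipschitzWith K X),
      IntervalIntegrable (fun u : ℝ => W (P + u • (Q - P)) *
        lineDeriv ℝ X (P + u • (Q - P)) (Q - P)) volume 0 1 := by
    intro W X hW hX
    have hWc : Continuous fun u : ℝ => W (P + u • (Q - P)) :=
      hW.continuous.comp (continuous_const.add (continuous_id.smul continuous_const))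
    have hm : Measurable fun u : ℝ => lineDeriv ℝ X (P + u • (Q - P)) (Q - P) :=
      (measurable_lineDeriv hX.continuous).comp
        (continuous_const.add (continuous_id.smul continuous_const)).measurable
    have hd : IntervalIntegrable (fun u : ℝ => lineDeriv ℝ X (P + u • (Q - P)) (Q - P))
        volume 0 1 := by
      rw [intervalIntegrable_iff_integrableOn_Ioc_of_le zero_le_one]
      exact Measure.integrableOn_of_bounded (M := K * ‖Q - P‖) measure_Ioc_lt_top.ne
        hm.aestronglyMeasurable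
        (Eventually.of_forall fun u => norm_lineDeriv_le_of_lipschitz ℝ hX)
    exact hd.continuousOn_mul hWc.continuousOn
  rw [JS, JV, JV, ← intervalIntegral.integral_sub (hint U V hU hV) (hint V U hV hU)]
  congr 1
  rw [intervalIntegral.integral_of_le zero_le_one, intervalIntegral.integral_of_le zero_le_one,
    integral_Ioc_eq_integral_Ioo, integral_Ioc_eq_integral_Ioo]
  apply integral_congr_ae
  rw [EventuallyEq, ae_restrict_iff' measurableSet_Ioo]
  filter_upwards [(lip_line U K hU P (Q - P)).ae_differentiableAt,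
    (lip_line V K hV P (Q - P)).ae_differentiableAt] with u h1 h2 hu
  have e0 : (fun u : ℝ => G (P + u • (Q - P))) =ᶠ[𝓝 u]
      fun u : ℝ => ((U (P + u • (Q - P)) : ℝ) : ℂ) + (V (P + u • (Q - P)) : ℝ) * Complex.I := by
    filter_upwards [Ioo_mem_nhds hu.1 hu.2] with t ht
    exact h _ (seg_mem hT hP hQ ht.1.le ht.2.le)
  have d1 : HasDerivAt (fun u : ℝ => ((U (P + u • (Q - P)) : ℝ) : ℂ))
      ((lineDeriv ℝ U (P + u • (Q - P)) (Q - P) : ℝ) : ℂ) u := by
    have := h1.hasDerivAt
    rw [deriv_line] at this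
    exact this.ofReal_comp
  have d2 : HasDerivAt (fun u : ℝ => ((V (P + u • (Q - P)) : ℝ) : ℂ))
      ((lineDeriv ℝ V (P + u • (Q - P)) (Q - P) : ℝ) : ℂ) u := by
    have := h2.hasDerivAt
    rw [deriv_line] at this
    exact this.ofReal_comp
  have d3 := (d1.add (d2.mul_const Complex.I)).deriv
  have d4 : deriv (fun u : ℝ => G (P + u • (Q - P))) u =
      ((lineDeriv ℝ U (P + u • (Q - P)) (Q - P) : ℝ) : ℂ) +
        ((lineDeriv ℝ V (P + u • (Q - P)) (Q - P) : ℝ) : ℂ) * Complex.I := by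
    rw [e0.deriv_eq]
    exact d3
  rw [d4, h _ (seg_mem hT hP hQ hu.1.le hu.2.le), jac_im]
  ring

/-- Green's formula on a triangle -/
theorem green (v : Fin 3 → ℂ)
    (hv : 0 < (v 1 - v 0).re * (v 2 - v 0).im - (v 1 - v 0).im * (v 2 - v 0).re)
    (G : ℂ → ℂ) (K : ℝ≥0) (hG : LipschitzOnWith K G (convexHull ℝ (Set.range v))) :
    ∫ z in convexHull ℝ (Set.range v),
        ((starRingEnd ℂ) (fderiv ℝ G z 1) * fderiv ℝ G z Complex.I).im =
      JS G (v 0) (v 1) + JS G (v 1) (v 2) + JS G (v 2) (v 0) := by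
  obtain ⟨U, V, hU, hV, h⟩ := extend_pair G _ K hG
  have hT := convex_convexHull ℝ (Set.range v)
  have m : ∀ k, v k ∈ convexHull ℝ (Set.range v) := fun k =>
    subset_convexHull ℝ _ ⟨k, rfl⟩
  have g1 := grn1 U V K K hU hV v hv
  have g2 := grn1 V U K K hV hU v hv
  rw [JS_eq G U V K hU hV _ hT h _ _ (m 0) (m 1), JS_eq G U V K hU hV _ hT h _ _ (m 1) (m 2),
    JS_eq G U V K hU hV _ hT h _ _ (m 2) (m 0)]
  have hL : ∫ z in convexHull ℝ (Set.range v),
        ((starRingEnd ℂ) (fderiv ℝ G z 1) * fderiv ℝ G z Complex.I).im =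
      ∫ z in convexHull ℝ (Set.range v), (fderiv ℝ U z 1 * fderiv ℝ V z Complex.I -
        fderiv ℝ U z Complex.I * fderiv ℝ V z 1) := by
    have hfr : ∀ᵐ z : ℂ, z ∉ frontier (convexHull ℝ (Set.range v)) := by
      rw [ae_iff]
      simpa using hT.addHaar_frontier (volume : Measure ℂ)
    apply integral_congr_ae
    rw [EventuallyEq, ae_restrict_iff' ((Set.finite_range v).isClosed_convexHull ℝ).measurableSet]
    filter_upwards [hU.ae_differentiableAt, hV.ae_differentiableAt, hfr] with z h1 h2 h3 hz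
    have hz2 : z ∈ interior (convexHull ℝ (Set.range v)) := by
      by_contra hc
      exact h3 ⟨subset_closure hz, hc⟩
    have e0 : G =ᶠ[𝓝 z] fun z => (U z : ℂ) + V z * Complex.I := by
      filter_upwards [isOpen_interior.mem_nhds hz2] with t ht
      exact h t (interior_subset ht)
    rw [e0.fderiv_eq, fderiv_pair U V z 1 h1 h2, fderiv_pair U V z Complex.I h1 h2, jac_im]
  have hsw : ∫ z in convexHull ℝ (Set.range v), (fderiv ℝ V z 1 * fderiv ℝ U z Complex.I -
        fderiv ℝ V z Complex.I * fderiv ℝ U z 1) =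
      -∫ z in convexHull ℝ (Set.range v), (fderiv ℝ U z 1 * fderiv ℝ V z Complex.I -
        fderiv ℝ U z Complex.I * fderiv ℝ V z 1) := by
    rw [← integral_neg]
    apply integral_congr_ae
    refine Eventually.of_forall fun z => ?_
    show fderiv ℝ V z 1 * fderiv ℝ U z Complex.I - fderiv ℝ V z Complex.I * fderiv ℝ U z 1 =
      -(fderiv ℝ U z 1 * fderiv ℝ V z Complex.I - fderiv ℝ U z Complex.I * fderiv ℝ V z 1)
    ring
  rw [hsw] at g2
  rw [hL]
  linarith

/-- the reversed segment -/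
theorem JS_rev (G : ℂ → ℂ) (P Q : ℂ) : JS G Q P = -JS G P Q := by
  rw [JS, JS]
  have h3 := intervalIntegral.integral_comp_sub_left (a := 0) (b := 1)
    (fun u : ℝ => ((starRingEnd ℂ) (G (P + u • (Q - P))) *
      deriv (fun u : ℝ => G (P + u • (Q - P))) u).im) 1
  rw [sub_self, sub_zero] at h3
  rw [← h3, ← mul_neg, ← intervalIntegral.integral_neg]
  congr 1
  apply intervalIntegral.integral_congr
  intro u _
  have e1 : ∀ t : ℝ, Q + t • (P - Q) = P + (1 - t) • (Q - P) := by
    intro t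
    rw [smul_sub, smul_sub, sub_smul, sub_smul, one_smul, one_smul]; ring
  show ((starRingEnd ℂ) (G (Q + u • (P - Q))) *
      deriv (fun u : ℝ => G (Q + u • (P - Q))) u).im =
    -((starRingEnd ℂ) (G (P + (1 - u) • (Q - P))) *
      deriv (fun u : ℝ => G (P + u • (Q - P))) (1 - u)).im
  have e2 : (fun u : ℝ => G (Q + u • (P - Q))) =
      fun t : ℝ => (fun u : ℝ => G (P + u • (Q - P))) (1 - t) := by
    funext t
    show G (Q + t • (P - Q)) = G (P + (1 - t) • (Q - P))
    rw [e1]
  have e3 := deriv_comp_const_sub (f := fun u : ℝ => G (P + u • (Q - P))) (a := 1) (x := u)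
  rw [e1, e2, e3, mul_neg, Complex.neg_im]

/-- the functional is invariant under the gluings -/
theorem JS_glue (G G' : ℂ → ℂ) (P Q b ζ : ℂ) (a : ℝ) (hζ : ‖ζ‖ = 1)
    (h : ∀ z ∈ segment ℝ P Q, G' (a * z + b) = ζ * G z) :
    JS G' (a * P + b) (a * Q + b) = JS G P Q := by
  rw [JS, JS]
  congr 1
  rw [intervalIntegral.integral_of_le zero_le_one, intervalIntegral.integral_of_le zero_le_one,
    integral_Ioc_eq_integral_Ioo, integral_Ioc_eq_integral_Ioo]
  apply setIntegral_congr_fun measurableSet_Ioo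
  intro u hu
  have hm : ∀ t ∈ Icc (0 : ℝ) 1, P + t • (Q - P) ∈ segment ℝ P Q := fun t ht =>
    seg_mem (convex_segment P Q) (left_mem_segment ℝ P Q) (right_mem_segment ℝ P Q) ht.1 ht.2
  have e1 : ∀ t : ℝ, (a * P + b) + t • (a * Q + b - (a * P + b)) = a * (P + t • (Q - P)) + b := by
    intro t
    simp only [Complex.real_smul]
    ring
  have e2 : (fun t : ℝ => G' ((a * P + b) + t • (a * Q + b - (a * P + b)))) =ᶠ[𝓝 u]
      fun t : ℝ => ζ * G (P + t • (Q - P)) := by
    filter_upwards [Ioo_mem_nhds hu.1 hu.2] with t ht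
    rw [e1, h _ (hm t ⟨ht.1.le, ht.2.le⟩)]
  show ((starRingEnd ℂ) (G' ((a * P + b) + u • (a * Q + b - (a * P + b)))) *
      deriv (fun t : ℝ => G' ((a * P + b) + t • (a * Q + b - (a * P + b)))) u).im =
    ((starRingEnd ℂ) (G (P + u • (Q - P))) * deriv (fun u : ℝ => G (P + u • (Q - P))) u).im
  rw [e2.deriv_eq, e1, h _ (hm u ⟨hu.1.le, hu.2.le⟩), map_mul]
  have e3 : deriv (fun t : ℝ => ζ * G (P + t • (Q - P))) u =
      ζ * deriv (fun t : ℝ => G (P + t • (Q - P))) u := by
    by_cases hd : DifferentiableAt ℝ (fun t : ℝ => G (P + t • (Q - P))) u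
    · exact (hd.hasDerivAt.const_mul ζ).deriv
    · have h0 : ζ ≠ 0 := fun h0 => by rw [h0, norm_zero] at hζ; exact zero_ne_one hζ
      rw [deriv_zero_of_not_differentiableAt hd, deriv_zero_of_not_differentiableAt, mul_zero]
      intro hd2
      apply hd
      have := hd2.const_mul ζ⁻¹
      refine this.congr_of_eventuallyEq (Eventually.of_forall fun t => ?_)
      show G (P + t • (Q - P)) = ζ⁻¹ * (ζ * G (P + t • (Q - P)))
      rw [← mul_assoc, inv_mul_cancel₀ h0, one_mul]
  rw [e3]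
  have e4 : (starRingEnd ℂ) ζ * ζ = 1 := by
    rw [mul_comm, Complex.mul_conj, Complex.normSq_eq_norm_sq, hζ]
    norm_num
  congr 1
  linear_combination ((starRingEnd ℂ) (G (P + u • (Q - P))) *
    deriv (fun t : ℝ => G (P + t • (Q - P))) u) * e4

end Pool.Agent.H75.GT
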