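import Pool.Agent.H75.GT.Approx
import Pool.Agent.H75.GT.Change

/-!
# Green's formula for Lipschitz functions on a triangle, real form
-/

set_option autoImplicit false

namespace Pool.Agent.H75.GT

open MeasureTheory Filter Topology Set
open scoped NNReal ContDiff

/-- the line integral of `U dV` over a segment -/
noncomputable def JV (U V : ℂ → ℝ) (P Q : ℂ) : ℝ :=
  ∫ u in (0 : ℝ)..1, U (P + u • (Q - P)) * lineDeriv ℝ V (P + u • (Q - P)) (Q - P)

theorem II_eq (U V : ℂ → ℝ) (hU : ContDiff ℝ 2 U) (K : ℝ≥0) (hV : LipschitzWith K V) (P Q : ℂ) :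
    II U V P Q = U Q * V Q - U P * V P - JV U V P Q := by
  have h := seg_parts U V (hU.of_le (by norm_num)) K hV P (Q - P) 1
  rw [one_smul, add_sub_cancel] at h
  rw [JV, h, II]
  ring

theorem JV_tendsto (U V : ℂ → ℝ) (K L : ℝ≥0) (hU : LipschitzWith K U) (hV : LipschitzWith L V)
    (P Q : ℂ) : Tendsto (fun n => JV (um U n) V P Q) atTop (𝓝 (JV U V P Q)) := by
  have hm : Measurable fun u : ℝ => lineDeriv ℝ V (P + u • (Q - P)) (Q - P) :=
    (measurable_lineDeriv hV.continuous).comp
      (continuous_const.add (continuous_id.smul continuous_const)).measurable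
  have hb : ∀ u : ℝ, ‖lineDeriv ℝ V (P + u • (Q - P)) (Q - P)‖ ≤ L * ‖Q - P‖ :=
    fun u => norm_lineDeriv_le_of_lipschitz ℝ hV
  have hint : ∀ W : ℂ → ℝ, Continuous W → IntervalIntegrable
      (fun u : ℝ => W (P + u • (Q - P)) * lineDeriv ℝ V (P + u • (Q - P)) (Q - P)) volume 0 1 := by
    intro W hW
    have hWc : Continuous fun u : ℝ => W (P + u • (Q - P)) :=
      hW.comp (continuous_const.add (continuous_id.smul continuous_const))
    have hd : IntervalIntegrable (fun u : ℝ => lineDeriv ℝ V (P + u • (Q - P)) (Q - P))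
        volume 0 1 := by
      rw [intervalIntegrable_iff_integrableOn_Ioc_of_le zero_le_one]
      exact Measure.integrableOn_of_bounded (M := L * ‖Q - P‖) measure_Ioc_lt_top.ne
        hm.aestronglyMeasurable (Eventually.of_forall hb)
    exact hd.continuousOn_mul hWc.continuousOn
  rw [tendsto_iff_norm_sub_tendsto_zero]
  have h0 : Tendsto (fun n : ℕ => (K * (1 / ((n : ℝ) + 1))) * (L * ‖Q - P‖)) atTop (𝓝 0) := by
    have := (tendsto_one_div_add_atTop_nhds_zero_nat (𝕜 := ℝ)).const_mul (K : ℝ)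
    have h2 := this.mul_const (L * ‖Q - P‖ : ℝ)
    rwa [mul_zero, zero_mul] at h2
  refine squeeze_zero (fun n => norm_nonneg _) (fun n => ?_) h0
  rw [JV, JV, ← intervalIntegral.integral_sub
    (hint _ (um_contDiff U hU.continuous n).continuous) (hint _ hU.continuous)]
  have h1 : ∀ u ∈ Set.uIoc (0 : ℝ) 1,
      ‖um U n (P + u • (Q - P)) * lineDeriv ℝ V (P + u • (Q - P)) (Q - P) -
        U (P + u • (Q - P)) * lineDeriv ℝ V (P + u • (Q - P)) (Q - P)‖ ≤
      (K * (1 / ((n : ℝ) + 1))) * (L * ‖Q - P‖) := by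
    intro u _
    rw [← sub_mul, norm_mul]
    apply mul_le_mul _ (hb u) (norm_nonneg _)
    · have := K.2
      positivity
    · rw [Real.norm_eq_abs]
      exact um_close U K hU n _
  have h2 := intervalIntegral.norm_integral_le_of_norm_le_const h1
  rwa [sub_zero, abs_one, mul_one] at h2

theorem fderiv_dt (U V : ℂ → ℝ) (z e f : ℂ) :
    fderiv ℝ U z e * fderiv ℝ V z f - fderiv ℝ U z f * fderiv ℝ V z e =
      dt e f * (fderiv ℝ U z 1 * fderiv ℝ V z Complex.I -
        fderiv ℝ U z Complex.I * fderiv ℝ V z 1) := by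
  have h : ∀ (W : ℂ → ℝ) (w : ℂ), fderiv ℝ W z w =
      w.re * fderiv ℝ W z 1 + w.im * fderiv ℝ W z Complex.I := by
    intro W w
    have e1 : w = w.re • (1 : ℂ) + w.im • Complex.I := by
      simp [Complex.re_add_im]
    conv_lhs => rw [e1, map_add, map_smul, map_smul]
    rfl
  rw [h U e, h U f, h V e, h V f, dt]
  ring

/-- Green's formula on a triangle for Lipschitz functions -/
theorem grn1 (U V : ℂ → ℝ) (K L : ℝ≥0) (hU : LipschitzWith K U) (hV : LipschitzWith L V)
    (v : Fin 3 → ℂ) (hv : 0 < dt (v 1 - v 0) (v 2 - v 0)) :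
    ∫ z in convexHull ℝ (Set.range v), (fderiv ℝ U z 1 * fderiv ℝ V z Complex.I -
        fderiv ℝ U z Complex.I * fderiv ℝ V z 1) =
      JV U V (v 0) (v 1) + JV U V (v 1) (v 2) + JV U V (v 2) (v 0) := by
  set p := v 0 with hp
  set e := v 1 - v 0 with he
  set f := v 2 - v 0 with hf
  have e1 : p + e = v 1 := by rw [he, hp]; ring
  have e2 : p + f = v 2 := by rw [hf, hp]; ring
  have hcomp : IsCompact (convexHull ℝ (Set.range v)) :=
    (Set.finite_range v).isCompact_convexHull ℝ
  -- smooth case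
  have hn : ∀ n, ∫ z in convexHull ℝ (Set.range v),
      (fderiv ℝ (um U n) z e * lineDeriv ℝ V z f - fderiv ℝ (um U n) z f * lineDeriv ℝ V z e) =
      dt e f * (JV (um U n) V (v 0) (v 1) + JV (um U n) V (v 1) (v 2) +
        JV (um U n) V (v 2) (v 0)) := by
    intro n
    have hs := um_contDiff U hU.continuous n
    rw [tri_eq, change _ _ _ hv, grn0 (um U n) V hs L hV, e1, e2, II_eq _ V hs L hV,
      II_eq _ V hs L hV, II_eq _ V hs L hV]
    ring
  have hr : Tendsto (fun n => dt e f * (JV (um U n) V (v 0) (v 1) + JV (um U n) V (v 1) (v 2) +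
      JV (um U n) V (v 2) (v 0))) atTop
      (𝓝 (dt e f * (JV U V (v 0) (v 1) + JV U V (v 1) (v 2) + JV U V (v 2) (v 0)))) :=
    (((JV_tendsto U V K L hU hV _ _).add (JV_tendsto U V K L hU hV _ _)).add
      (JV_tendsto U V K L hU hV _ _)).const_mul _
  have hae : ∀ᵐ z ∂(volume.restrict (convexHull ℝ (Set.range v))), Tendsto (fun n =>
      fderiv ℝ (um U n) z e * lineDeriv ℝ V z f - fderiv ℝ (um U n) z f * lineDeriv ℝ V z e) atTop
      (𝓝 (fderiv ℝ U z e * lineDeriv ℝ V z f - fderiv ℝ U z f * lineDeriv ℝ V z e)) := by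
    apply ae_restrict_of_ae
    filter_upwards [um_ae U K hU e, um_ae U K hU f] with z h1 h2
    exact (h1.mul_const _).sub (h2.mul_const _)
  have hl : Tendsto (fun n => ∫ z in convexHull ℝ (Set.range v),
      (fderiv ℝ (um U n) z e * lineDeriv ℝ V z f - fderiv ℝ (um U n) z f * lineDeriv ℝ V z e))
      atTop (𝓝 (∫ z in convexHull ℝ (Set.range v),
        (fderiv ℝ U z e * lineDeriv ℝ V z f - fderiv ℝ U z f * lineDeriv ℝ V z e))) := by
    apply tendsto_integral_of_dominated_convergence
      (fun _ => (K * ‖e‖) * (L * ‖f‖) + (K * ‖f‖) * (L * ‖e‖))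
    · intro n
      have hs := um_contDiff U hU.continuous n
      have c1 : ∀ w : ℂ, Measurable fun z => fderiv ℝ (um U n) z w := fun w =>
        (cont_fderiv _ (hs.of_le (by norm_num)) w).measurable
      have c2 : ∀ w : ℂ, Measurable fun z => lineDeriv ℝ V z w := fun w =>
        measurable_lineDeriv hV.continuous
      exact (((c1 e).mul (c2 f)).sub ((c1 f).mul (c2 e))).aestronglyMeasurable
    · exact integrableOn_const hcomp.measure_lt_top.ne
    · intro n
      refine Eventually.of_forall fun z => ?_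
      have a1 : ∀ w : ℂ, ‖fderiv ℝ (um U n) z w‖ ≤ K * ‖w‖ := fun w =>
        (ContinuousLinearMap.le_opNorm _ _).trans (mul_le_mul_of_nonneg_right
          (norm_fderiv_le_of_lipschitz ℝ (um_lip U K hU n)) (norm_nonneg _))
      have a2 : ∀ w : ℂ, ‖lineDeriv ℝ V z w‖ ≤ L * ‖w‖ := fun w =>
        norm_lineDeriv_le_of_lipschitz ℝ hV
      refine (norm_sub_le _ _).trans (add_le_add ?_ ?_)
      · rw [norm_mul]
        exact mul_le_mul (a1 e) (a2 f) (norm_nonneg _) ((norm_nonneg _).trans (a1 e))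
      · rw [norm_mul]
        exact mul_le_mul (a1 f) (a2 e) (norm_nonneg _) ((norm_nonneg _).trans (a1 f))
    · exact hae
  have h1 := tendsto_nhds_unique (hl.congr hn) hr
  have h2 : ∫ z in convexHull ℝ (Set.range v),
      (fderiv ℝ U z e * lineDeriv ℝ V z f - fderiv ℝ U z f * lineDeriv ℝ V z e) =
      dt e f * ∫ z in convexHull ℝ (Set.range v), (fderiv ℝ U z 1 * fderiv ℝ V z Complex.I -
        fderiv ℝ U z Complex.I * fderiv ℝ V z 1) := by
    rw [← integral_const_mul]
    apply integral_congr_ae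
    apply ae_restrict_of_ae
    filter_upwards [hV.ae_differentiableAt] with z hz
    rw [hz.lineDeriv_eq_fderiv, hz.lineDeriv_eq_fderiv, fderiv_dt]
  rw [h2] at h1
  exact mul_left_cancel₀ hv.ne' h1

end Pool.Agent.H75.GT
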