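import Pool.Agent.H75.GT.Slice

/-!
# Green's formula on the standard triangle, smooth case
-/

set_option autoImplicit false

namespace Pool.Agent.H75.GT

open MeasureTheory Filter Topology Set
open scoped NNReal ContDiff

/-- the parametrisation of the triangle -/
noncomputable def LL (p e f : ℂ) (q : ℝ × ℝ) : ℂ := p + q.1 • e + q.2 • f

theorem LL_cont (p e f : ℂ) : Continuous (LL p e f) :=
  (continuous_const.add (continuous_fst.smul continuous_const)).add
    (continuous_snd.smul continuous_const)

/-- the line integral of `V dU` over a segment, for smooth `U` -/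
noncomputable def II (U V : ℂ → ℝ) (P Q : ℂ) : ℝ :=
  ∫ u in (0 : ℝ)..1, fderiv ℝ U (P + u • (Q - P)) (Q - P) * V (P + u • (Q - P))

theorem intOn_mul (c : ℂ → ℝ) (hc : Continuous c) (V : ℂ → ℝ) (K : ℝ≥0)
    (hV : LipschitzWith K V) (p e f w : ℂ) :
    IntegrableOn (fun q : ℝ × ℝ => c (LL p e f q) * lineDeriv ℝ V (LL p e f q) w) Dl := by
  have h1 : Continuous fun q : ℝ × ℝ => c (LL p e f q) := hc.comp (LL_cont p e f)
  obtain ⟨C, hC⟩ := Dl_compact.exists_bound_of_continuousOn h1.continuousOn
  have h2 : Measurable fun q : ℝ × ℝ => lineDeriv ℝ V (LL p e f q) w :=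
    (measurable_lineDeriv hV.continuous).comp (LL_cont p e f).measurable
  refine Measure.integrableOn_of_bounded (M := C * (K * ‖w‖)) Dl_compact.measure_lt_top.ne
    (h1.measurable.mul h2).aestronglyMeasurable ?_
  refine (ae_restrict_iff' Dl_meas).2 (Eventually.of_forall fun q hq => ?_)
  rw [norm_mul]
  exact mul_le_mul (hC q hq) (norm_lineDeriv_le_of_lipschitz ℝ hV) (norm_nonneg _)
    ((norm_nonneg _).trans (hC q hq))

theorem intOn_cont (c : ℂ → ℝ) (hc : Continuous c) (p e f : ℂ) :
    IntegrableOn (fun q : ℝ × ℝ => c (LL p e f q)) Dl :=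
  (hc.comp (LL_cont p e f)).continuousOn.integrableOn_compact Dl_compact

/-- one half of the formula -/
theorem half (h V : ℂ → ℝ) (hh : ContDiff ℝ 1 h) (K : ℝ≥0) (hV : LipschitzWith K V)
    (p e f : ℂ) :
    ∫ q in Dl, h (LL p e f q) * lineDeriv ℝ V (LL p e f q) f =
      (∫ s in (0 : ℝ)..1, h (p + s • e + (1 - s) • f) * V (p + s • e + (1 - s) • f)) -
        (∫ s in (0 : ℝ)..1, h (p + s • e) * V (p + s • e)) -
        ∫ q in Dl, fderiv ℝ h (LL p e f q) f * V (LL p e f q) := by
  have c1 : Continuous fun z => h z * V z := hh.continuous.mul hV.continuous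
  have c2 : Continuous fun z => fderiv ℝ h z f * V z := (cont_fderiv h hh f).mul hV.continuous
  rw [tri_fub (fun s r => h (LL p e f (s, r)) * lineDeriv ℝ V (LL p e f (s, r)) f)
      (intOn_mul h hh.continuous V K hV p e f f),
    tri_fub (fun s r => fderiv ℝ h (LL p e f (s, r)) f * V (LL p e f (s, r)))
      (intOn_cont _ c2 p e f)]
  have i1 : Continuous fun s : ℝ => h (p + s • e + (1 - s) • f) * V (p + s • e + (1 - s) • f) :=
    c1.comp ((continuous_const.add (continuous_id.smul continuous_const)).add
      ((continuous_const.sub continuous_id).smul continuous_const))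
  have i2 : Continuous fun s : ℝ => h (p + s • e) * V (p + s • e) :=
    c1.comp (continuous_const.add (continuous_id.smul continuous_const))
  have i3 : Continuous fun s : ℝ =>
      ∫ r in (0 : ℝ)..(1 - s), fderiv ℝ h (LL p e f (s, r)) f * V (LL p e f (s, r)) := by
    refine intervalIntegral.continuous_parametric_intervalIntegral_of_continuous
      (f := fun s r => fderiv ℝ h (LL p e f (s, r)) f * V (LL p e f (s, r))) ?_
      (continuous_const.sub continuous_id)
    exact c2.comp (LL_cont p e f)
  have i12 : Continuous fun s : ℝ =>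
      h (p + s • e + (1 - s) • f) * V (p + s • e + (1 - s) • f) -
        h (p + s • e) * V (p + s • e) := i1.sub i2
  rw [← intervalIntegral.integral_sub (i1.intervalIntegrable _ _) (i2.intervalIntegrable _ _),
    ← intervalIntegral.integral_sub (i12.intervalIntegrable _ _)
      (i3.intervalIntegrable _ _)]
  apply intervalIntegral.integral_congr
  intro s _
  have h1 := seg_parts h V hh K hV (p + s • e) f (1 - s)
  exact h1

theorem fderiv_symm (U : ℂ → ℝ) (hU : ContDiff ℝ 2 U) (z e f : ℂ) :
    fderiv ℝ (fun z => fderiv ℝ U z e) z f = fderiv ℝ (fun z => fderiv ℝ U z f) z e := by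
  have hd : DifferentiableAt ℝ (fderiv ℝ U) z :=
    (hU.fderiv_right (m := 1) (by norm_num)).differentiable (by norm_num) z
  have e1 : ∀ e f : ℂ, fderiv ℝ (fun z => fderiv ℝ U z e) z f =
      fderiv ℝ (fderiv ℝ U) z f e := by
    intro e f
    rw [fderiv_clm_apply hd (differentiableAt_const e)]
    simp
  rw [e1, e1]
  exact (hU.contDiffAt.isSymmSndFDerivAt (by simp)) f e

/-- Green's formula on a triangle, smooth `U` -/
theorem grn0 (U V : ℂ → ℝ) (hU : ContDiff ℝ 2 U) (K : ℝ≥0) (hV : LipschitzWith K V)
    (p e f : ℂ) :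
    ∫ q in Dl, (fderiv ℝ U (LL p e f q) e * lineDeriv ℝ V (LL p e f q) f -
        fderiv ℝ U (LL p e f q) f * lineDeriv ℝ V (LL p e f q) e) =
      -(II U V p (p + e) + II U V (p + e) (p + f) + II U V (p + f) p) := by
  have he : ContDiff ℝ 1 fun z => fderiv ℝ U z e :=
    (hU.fderiv_right (m := 1) (by norm_num)).clm_apply contDiff_const
  have hf : ContDiff ℝ 1 fun z => fderiv ℝ U z f :=
    (hU.fderiv_right (m := 1) (by norm_num)).clm_apply contDiff_const
  have h1 := half (fun z => fderiv ℝ U z e) V he K hV p e f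
  have h2 := half (fun z => fderiv ℝ U z f) V hf K hV p f e
  have sw : ∀ q : ℝ × ℝ, LL p f e q = LL p e f (q.2, q.1) := by
    intro q
    show p + q.1 • f + q.2 • e = p + q.2 • e + q.1 • f
    ring
  have sw1 : ∫ q in Dl, fderiv ℝ U (LL p f e q) f * lineDeriv ℝ V (LL p f e q) e =
      ∫ q in Dl, fderiv ℝ U (LL p e f q) f * lineDeriv ℝ V (LL p e f q) e := by
    rw [tri_fub (fun s r => fderiv ℝ U (LL p f e (s, r)) f * lineDeriv ℝ V (LL p f e (s, r)) e)
      (intOn_mul _ hf.continuous V K hV p f e e),
      tri_fub' (fun s r => fderiv ℝ U (LL p e f (s, r)) f * lineDeriv ℝ V (LL p e f (s, r)) e)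
      (intOn_mul _ hf.continuous V K hV p e f e)]
    simp only [sw]
  have sw2 : ∫ q in Dl, fderiv ℝ (fun z => fderiv ℝ U z f) (LL p f e q) e * V (LL p f e q) =
      ∫ q in Dl, fderiv ℝ (fun z => fderiv ℝ U z e) (LL p e f q) f * V (LL p e f q) := by
    have c2 : Continuous fun z => fderiv ℝ (fun z => fderiv ℝ U z f) z e * V z :=
      (cont_fderiv _ hf e).mul hV.continuous
    have c3 : Continuous fun z => fderiv ℝ (fun z => fderiv ℝ U z e) z f * V z :=
      (cont_fderiv _ he f).mul hV.continuous
    rw [tri_fub (fun s r => fderiv ℝ (fun z => fderiv ℝ U z f) (LL p f e (s, r)) e *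
        V (LL p f e (s, r))) (intOn_cont _ c2 p f e),
      tri_fub' (fun s r => fderiv ℝ (fun z => fderiv ℝ U z e) (LL p e f (s, r)) f *
        V (LL p e f (s, r))) (intOn_cont _ c3 p e f)]
    simp only [sw, fderiv_symm U hU _ e f]
  rw [sw1, sw2] at h2
  rw [integral_sub (intOn_mul _ he.continuous V K hV p e f f)
    (intOn_mul _ hf.continuous V K hV p e f e), h1, h2]
  -- the boundary terms
  have b1 : II U V p (p + e) = ∫ s in (0 : ℝ)..1, fderiv ℝ U (p + s • e) e * V (p + s • e) := by
    rw [II, add_sub_cancel_left]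
  have b3 : II U V (p + f) p = -∫ s in (0 : ℝ)..1, fderiv ℝ U (p + s • f) f * V (p + s • f) := by
    rw [II, ← intervalIntegral.integral_neg]
    have h3 := intervalIntegral.integral_comp_sub_left (a := 0) (b := 1)
      (fun s : ℝ => -(fderiv ℝ U (p + s • f) f * V (p + s • f))) 1
    rw [sub_self, sub_zero] at h3
    rw [← h3]
    apply intervalIntegral.integral_congr
    intro s _
    show fderiv ℝ U (p + f + s • (p - (p + f))) (p - (p + f)) * V (p + f + s • (p - (p + f))) =
      -(fderiv ℝ U (p + (1 - s) • f) f * V (p + (1 - s) • f))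
    have e1 : p - (p + f) = -f := by ring
    have e2 : p + f + s • (-f) = p + (1 - s) • f := by
      rw [smul_neg, sub_smul, one_smul]; ring
    rw [e1, e2, map_neg]
    ring
  have b2 : II U V (p + e) (p + f) =
      (∫ s in (0 : ℝ)..1, fderiv ℝ U (p + s • f + (1 - s) • e) f * V (p + s • f + (1 - s) • e)) -
      ∫ s in (0 : ℝ)..1, fderiv ℝ U (p + s • e + (1 - s) • f) e * V (p + s • e + (1 - s) • f) := by
    have h3 := intervalIntegral.integral_comp_sub_left (a := 0) (b := 1)
      (fun s : ℝ => fderiv ℝ U (p + s • e + (1 - s) • f) e * V (p + s • e + (1 - s) • f)) 1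
    rw [sub_self, sub_zero] at h3
    have i1 : Continuous fun s : ℝ => fderiv ℝ U (p + s • f + (1 - s) • e) f *
        V (p + s • f + (1 - s) • e) :=
      (hf.continuous.mul hV.continuous).comp ((continuous_const.add
        (continuous_id.smul continuous_const)).add
        ((continuous_const.sub continuous_id).smul continuous_const))
    have i2 : Continuous fun s : ℝ => fderiv ℝ U (p + (1 - s) • e + (1 - (1 - s)) • f) e *
        V (p + (1 - s) • e + (1 - (1 - s)) • f) :=
      (he.continuous.mul hV.continuous).comp ((continuous_const.add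
        ((continuous_const.sub continuous_id).smul continuous_const)).add
        ((continuous_const.sub (continuous_const.sub continuous_id)).smul continuous_const))
    rw [← h3, ← intervalIntegral.integral_sub (i1.intervalIntegrable _ _)
      (i2.intervalIntegrable _ _), II]
    apply intervalIntegral.integral_congr
    intro s _
    show fderiv ℝ U (p + e + s • (p + f - (p + e))) (p + f - (p + e)) *
        V (p + e + s • (p + f - (p + e))) =
      fderiv ℝ U (p + s • f + (1 - s) • e) f * V (p + s • f + (1 - s) • e) -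
      fderiv ℝ U (p + (1 - s) • e + (1 - (1 - s)) • f) e *
        V (p + (1 - s) • e + (1 - (1 - s)) • f)
    have e1 : p + f - (p + e) = f - e := by ring
    have e2 : p + e + s • (f - e) = p + s • f + (1 - s) • e := by
      rw [smul_sub, sub_smul, one_smul]; ring
    have e3 : p + (1 - s) • e + (1 - (1 - s)) • f = p + s • f + (1 - s) • e := by
      rw [sub_sub_cancel]; ring
    rw [e1, e2, e3, map_sub]
    ring
  rw [b1, b2, b3]
  ring

end Pool.Agent.H75.GT
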