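import Mathlib

/-!
# Green's formula on the standard triangle
-/

set_option autoImplicit false

namespace Pool.Agent.H75.GT

open MeasureTheory Filter Topology Set
open scoped NNReal ContDiff

theorem deriv_line (V : ℂ → ℝ) (z f : ℂ) (r : ℝ) :
    deriv (fun r : ℝ => V (z + r • f)) r = lineDeriv ℝ V (z + r • f) f := by
  rw [lineDeriv]
  have e : (fun t : ℝ => V (z + r • f + t • f)) = fun t : ℝ => (fun r : ℝ => V (z + r • f)) (r + t) := by
    funext t
    show V (z + r • f + t • f) = V (z + (r + t) • f)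
    rw [add_smul, add_assoc]
  rw [e]
  have h := deriv_comp_const_add (f := fun r : ℝ => V (z + r • f)) (a := r) (x := 0)
  rw [add_zero] at h
  exact h.symm

theorem hasDerivAt_line (h : ℂ → ℝ) (hh : ContDiff ℝ 1 h) (z f : ℂ) (r : ℝ) :
    HasDerivAt (fun r : ℝ => h (z + r • f)) (fderiv ℝ h (z + r • f) f) r := by
  have h1 : HasFDerivAt h (fderiv ℝ h (z + r • f)) (z + r • f) :=
    (hh.differentiable (by norm_num) _).hasFDerivAt
  have h2 : HasDerivAt (fun r : ℝ => z + r • f) ((1 : ℝ) • f) r :=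
    ((hasDerivAt_id r).smul_const f).const_add z
  rw [one_smul] at h2
  exact h1.comp_hasDerivAt r h2

theorem lip_line (V : ℂ → ℝ) (K : ℝ≥0) (hV : LipschitzWith K V) (z f : ℂ) :
    LipschitzWith (K * ‖f‖₊) (fun r : ℝ => V (z + r • f)) := by
  apply hV.comp
  apply LipschitzWith.of_dist_le_mul
  intro x y
  rw [dist_add_left, dist_eq_norm, ← sub_smul, norm_smul, mul_comm, ← dist_eq_norm]
  rfl

theorem ac_line (V : ℂ → ℝ) (K : ℝ≥0) (hV : LipschitzWith K V) (z f : ℂ) (a b : ℝ) :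
    AbsolutelyContinuousOnInterval (fun r : ℝ => V (z + r • f)) a b :=
  ((lip_line V K hV z f).lipschitzOnWith (s := uIcc a b)).absolutelyContinuousOnInterval

theorem cont_fderiv (h : ℂ → ℝ) (hh : ContDiff ℝ 1 h) (f : ℂ) :
    Continuous fun z => fderiv ℝ h z f :=
  (hh.continuous_fderiv (by norm_num)).clm_apply continuous_const

theorem ac_smooth (h : ℂ → ℝ) (hh : ContDiff ℝ 1 h) (z f : ℂ) (a b : ℝ) :
    AbsolutelyContinuousOnInterval (fun r : ℝ => h (z + r • f)) a b := by
  have hc : Continuous fun r : ℝ => fderiv ℝ h (z + r • f) f :=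
    (cont_fderiv h hh f).comp (continuous_const.add (continuous_id.smul continuous_const))
  obtain ⟨C, hC⟩ := isCompact_uIcc.exists_bound_of_continuousOn (s := uIcc a b) hc.continuousOn
  have h1 : LipschitzOnWith (Real.toNNReal C) (fun r : ℝ => h (z + r • f)) (uIcc a b) := by
    apply Convex.lipschitzOnWith_of_nnnorm_deriv_le (𝕜 := ℝ)
    · intro x _
      exact (hasDerivAt_line h hh z f x).differentiableAt
    · intro x hx
      rw [(hasDerivAt_line h hh z f x).deriv]
      rw [← NNReal.coe_le_coe, coe_nnnorm]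
      exact (hC x hx).trans (Real.le_coe_toNNReal C)
    · exact convex_uIcc a b
  exact h1.absolutelyContinuousOnInterval

/-- integration by parts on a segment -/
theorem seg_parts (h V : ℂ → ℝ) (hh : ContDiff ℝ 1 h) (K : ℝ≥0) (hV : LipschitzWith K V)
    (z f : ℂ) (b : ℝ) :
    ∫ r in (0 : ℝ)..b, h (z + r • f) * lineDeriv ℝ V (z + r • f) f =
      h (z + b • f) * V (z + b • f) - h z * V z -
        ∫ r in (0 : ℝ)..b, fderiv ℝ h (z + r • f) f * V (z + r • f) := by
  have h1 := AbsolutelyContinuousOnInterval.integral_mul_deriv_eq_deriv_mul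
    (ac_smooth h hh z f 0 b) (ac_line V K hV z f 0 b)
  have e1 : ∀ r : ℝ, deriv (fun r : ℝ => V (z + r • f)) r = lineDeriv ℝ V (z + r • f) f :=
    deriv_line V z f
  have e2 : ∀ r : ℝ, deriv (fun r : ℝ => h (z + r • f)) r = fderiv ℝ h (z + r • f) f :=
    fun r => (hasDerivAt_line h hh z f r).deriv
  simp only [e1, e2, zero_smul, add_zero] at h1
  exact h1

/-- the standard triangle -/
def Dl : Set (ℝ × ℝ) := {q | 0 ≤ q.1 ∧ 0 ≤ q.2 ∧ q.1 + q.2 ≤ 1}

theorem Dl_closed : IsClosed Dl := by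
  have h1 : IsClosed {q : ℝ × ℝ | 0 ≤ q.1} := isClosed_le continuous_const continuous_fst
  have h2 : IsClosed {q : ℝ × ℝ | 0 ≤ q.2} := isClosed_le continuous_const continuous_snd
  have h3 : IsClosed {q : ℝ × ℝ | q.1 + q.2 ≤ 1} :=
    isClosed_le (continuous_fst.add continuous_snd) continuous_const
  exact h1.inter (h2.inter h3)

theorem Dl_meas : MeasurableSet Dl := Dl_closed.measurableSet

theorem Dl_compact : IsCompact Dl := by
  apply IsCompact.of_isClosed_subset (isCompact_Icc (a := ((0 : ℝ), (0 : ℝ))) (b := (1, 1)))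
    Dl_closed
  rintro ⟨s, r⟩ ⟨h1, h2, h3⟩
  simp only at h1 h2 h3
  exact ⟨⟨h1, h2⟩, ⟨by show s ≤ 1; linarith, by show r ≤ 1; linarith⟩⟩

theorem tri_aux (F : ℝ → ℝ → ℝ) :
    (∫ s, ∫ r, Dl.indicator (fun q : ℝ × ℝ => F q.1 q.2) (s, r)) =
      ∫ s in (0 : ℝ)..1, ∫ r in (0 : ℝ)..(1 - s), F s r := by
  have h1 : ∀ s : ℝ, ∫ r, Dl.indicator (fun q : ℝ × ℝ => F q.1 q.2) (s, r) =
      (Icc (0 : ℝ) 1).indicator (fun s => ∫ r in (0 : ℝ)..(1 - s), F s r) s := by
    intro s
    by_cases hs : s ∈ Icc (0 : ℝ) 1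
    · rw [indicator_of_mem hs, intervalIntegral.integral_of_le (by linarith [hs.2]),
        ← integral_Icc_eq_integral_Ioc, ← integral_indicator measurableSet_Icc]
      apply integral_congr_ae
      refine Eventually.of_forall fun r => ?_
      show Dl.indicator (fun q : ℝ × ℝ => F q.1 q.2) (s, r) =
        (Icc (0 : ℝ) (1 - s)).indicator (fun r => F s r) r
      by_cases hr : r ∈ Icc (0 : ℝ) (1 - s)
      · rw [indicator_of_mem hr, indicator_of_mem]
        exact ⟨hs.1, hr.1, by show s + r ≤ 1; linarith [hr.2]⟩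
      · rw [indicator_of_notMem hr, indicator_of_notMem]
        rintro ⟨_, h2, h3⟩
        exact hr ⟨h2, by show r ≤ 1 - s; linarith [show s + r ≤ 1 from h3]⟩
    · rw [indicator_of_notMem hs]
      rw [← integral_zero ℝ ℝ (μ := volume)]
      apply integral_congr_ae
      refine Eventually.of_forall fun r => ?_
      show Dl.indicator (fun q : ℝ × ℝ => F q.1 q.2) (s, r) = 0
      rw [indicator_of_notMem]
      rintro ⟨h1, h2, h3⟩
      exact hs ⟨h1, by linarith [show (0 : ℝ) ≤ r from h2, show s + r ≤ 1 from h3]⟩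
  rw [intervalIntegral.integral_of_le (by norm_num : (0 : ℝ) ≤ 1), ← integral_Icc_eq_integral_Ioc,
    ← integral_indicator measurableSet_Icc]
  apply integral_congr_ae
  exact Eventually.of_forall h1

theorem tri_fub (F : ℝ → ℝ → ℝ) (hF : IntegrableOn (fun q : ℝ × ℝ => F q.1 q.2) Dl) :
    ∫ q in Dl, F q.1 q.2 = ∫ s in (0 : ℝ)..1, ∫ r in (0 : ℝ)..(1 - s), F s r := by
  rw [← tri_aux, ← integral_indicator Dl_meas]
  rw [← integrable_indicator_iff Dl_meas] at hF
  exact integral_prod _ hF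

theorem Dl_swap (s r : ℝ) : (s, r) ∈ Dl ↔ (r, s) ∈ Dl := by
  constructor
  · rintro ⟨h1, h2, h3⟩
    exact ⟨h2, h1, by show r + s ≤ 1; linarith [show s + r ≤ 1 from h3]⟩
  · rintro ⟨h1, h2, h3⟩
    exact ⟨h2, h1, by show s + r ≤ 1; linarith [show r + s ≤ 1 from h3]⟩

theorem tri_fub' (F : ℝ → ℝ → ℝ) (hF : IntegrableOn (fun q : ℝ × ℝ => F q.1 q.2) Dl) :
    ∫ q in Dl, F q.1 q.2 = ∫ r in (0 : ℝ)..1, ∫ s in (0 : ℝ)..(1 - r), F s r := by
  have h := tri_aux (fun r s => F s r)
  rw [← h, ← integral_indicator Dl_meas]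
  rw [← integrable_indicator_iff Dl_meas] at hF
  rw [show (volume : Measure (ℝ × ℝ)) = (volume : Measure ℝ).prod volume from rfl,
    integral_prod_symm _ hF]
  apply integral_congr_ae
  refine Eventually.of_forall fun r => ?_
  apply integral_congr_ae
  refine Eventually.of_forall fun s => ?_
  show Dl.indicator (fun q : ℝ × ℝ => F q.1 q.2) (s, r) =
    Dl.indicator (fun q : ℝ × ℝ => F q.2 q.1) (r, s)
  by_cases hs : (s, r) ∈ Dl
  · rw [indicator_of_mem hs, indicator_of_mem ((Dl_swap s r).1 hs)]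
  · rw [indicator_of_notMem hs, indicator_of_notMem (fun h => hs ((Dl_swap s r).2 h))]

end Pool.Agent.H75.GT
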